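import Pool.Agent.helper1.VD.SpecA2

/-!
# Row AWMT of project VD (MP_07c750_an), block A2: the Riccati equation and the amplitude of a Gaussian beam
-/

set_option autoImplicit false

open scoped ContDiff Topology InnerProductSpace ComplexConjugate ENNReal
open MeasureTheory Filter Set

namespace Pool.Agent.VD

open Pool.Agent.VQ (CH)

section

variable {d : ℕ} {E : Type} [NormedAddCommGroup E] [NormedSpace ℝ E]

/-! ## Smoothness of matrix operations -/

theorem AWMT_det {n : WithTop ℕ∞} {A : E → MC d} (h : ∀ i j, ContDiff ℝ n fun x => A x i j) :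
    ContDiff ℝ n fun x => (A x).det := by
  have e : (fun x => (A x).det) = fun x => ∑ σ : Equiv.Perm (Fin d), ((Equiv.Perm.sign σ : ℤ) : ℂ) * ∏ i, A x (σ i) i := by
    funext x
    exact Matrix.det_apply' (A x)
  rw [e]
  exact ContDiff.sum fun σ _ => contDiff_const.mul (contDiff_prod fun i _ => h (σ i) i)

theorem AWMT_adj {n : WithTop ℕ∞} {A : E → MC d} (h : ∀ i j, ContDiff ℝ n fun x => A x i j) (i j : Fin d) :
    ContDiff ℝ n fun x => (A x).adjugate i j := by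
  have e : (fun x => (A x).adjugate i j) = fun x => ((A x).updateRow j (Pi.single i 1)).det := by
    funext x
    exact Matrix.adjugate_apply _ _ _
  rw [e]
  refine AWMT_det fun a b => ?_
  by_cases ha : a = j
  · subst ha
    simp only [Matrix.updateRow_self]
    exact contDiff_const
  · simp only [Matrix.updateRow_ne ha]
    exact h a b

theorem AWMT_inv {n : WithTop ℕ∞} {A : E → MC d} (h : ∀ i j, ContDiff ℝ n fun x => A x i j) (hd : ∀ x, (A x).det ≠ 0)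
    (i j : Fin d) : ContDiff ℝ n fun x => (A x)⁻¹ i j := by
  have e : (fun x => (A x)⁻¹ i j) = fun x => ((A x).det)⁻¹ * (A x).adjugate i j := by
    funext x
    rw [Matrix.inv_def, Ring.inverse_eq_inv', Matrix.smul_apply, smul_eq_mul]
  rw [e]
  exact ((AWMT_det h).inv hd).mul (AWMT_adj h i j)

theorem AWMT_mul {n : WithTop ℕ∞} {A B : E → MC d} (hA : ∀ i j, ContDiff ℝ n fun x => A x i j)
    (hB : ∀ i j, ContDiff ℝ n fun x => B x i j) (i j : Fin d) : ContDiff ℝ n fun x => (A x * B x) i j := by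
  have e : (fun x => (A x * B x) i j) = fun x => ∑ k, A x i k * B x k j := by
    funext x
    exact Matrix.mul_apply
  rw [e]
  exact ContDiff.sum fun k _ => (hA i k).mul (hB k j)

/-- the derivative in the last variable -/
theorem AWMT_dr {g : E × ℝ → ℂ} (hg : ContDiff ℝ ∞ g) :
    (∀ x : E × ℝ, HasDerivAt (fun r => g (x.1, r)) (fderiv ℝ g x (0, 1)) x.2) ∧
      Continuous fun x : E × ℝ => deriv (fun r => g (x.1, r)) x.2 := by
  have h1 : ∀ x : E × ℝ, HasDerivAt (fun r => g (x.1, r)) (fderiv ℝ g x (0, 1)) x.2 := by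
    intro x
    have h2 : HasDerivAt (fun r : ℝ => (x.1, r)) ((0 : E), (1 : ℝ)) x.2 :=
      (hasDerivAt_const x.2 x.1).prodMk (hasDerivAt_id x.2)
    have h3 : HasFDerivAt g (fderiv ℝ g x) (x.1, x.2) :=
      ((hg.differentiable (by simp)) x).hasFDerivAt
    exact h3.comp_hasDerivAt x.2 h2
  refine ⟨h1, ?_⟩
  have e : (fun x : E × ℝ => deriv (fun r => g (x.1, r)) x.2) = fun x => fderiv ℝ g x (0, 1) := by
    funext x
    exact (h1 x).deriv
  rw [e]
  exact (hg.continuous_fderiv (by simp)).clm_apply continuous_const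

/-- slices -/
theorem AWMT_sl {g : E × ℝ → ℂ} (hg : ContDiff ℝ ∞ g) (p : E) : ContDiff ℝ 1 fun t : ℝ => g (p, t) := by
  have h2 : ContDiff ℝ ∞ (fun t : ℝ => ((p, t) : E × ℝ)) := contDiff_const.prodMk contDiff_id
  have h3 : ContDiff ℝ ∞ (g ∘ fun t : ℝ => ((p, t) : E × ℝ)) := hg.comp h2
  exact h3.of_le (by simp)

/-- the derivative of a product of matrices -/
theorem AWMT_dm {A B : ℝ → MC d} {A' B' : MC d} {t : ℝ} (hA : ∀ i j, HasDerivAt (fun s => A s i j) (A' i j) t)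
    (hB : ∀ i j, HasDerivAt (fun s => B s i j) (B' i j) t) (i j : Fin d) :
    HasDerivAt (fun s => (A s * B s) i j) ((A' * B t + A t * B') i j) t := by
  have e : (fun s => (A s * B s) i j) = fun s => ∑ k, A s i k * B s k j := by
    funext s
    exact Matrix.mul_apply
  have e2 : (A' * B t + A t * B') i j = ∑ k, (A' i k * B t k j + A t i k * B' k j) := by
    rw [Matrix.add_apply, Matrix.mul_apply, Matrix.mul_apply, Finset.sum_add_distrib]
  rw [e, e2]
  exact HasDerivAt.fun_sum fun k _ => (hA i k).mul (hB k j)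

theorem AWMT_lag {L L' : ℝ} (h : L ≤ L') {Y Q : MC d} (hL : Lag L Y Q) : Lag L' Y Q :=
  ⟨hL.sym, hL.pos, fun i j => (hL.bdY i j).trans h, fun i j => (hL.bdP i j).trans h⟩

/-- expansion of a vector -/
theorem AWMT_exp (F : V d →L[ℝ] V d) (ξ : V d) (i : Fin d) : (F ξ) i = ∑ j, (F (EuclideanSpace.single j 1)) i * ξ j := by
  have h1 : ξ = ∑ j, ξ j • (EuclideanSpace.single j (1 : ℝ) : V d) := by
    have h2 := (EuclideanSpace.basisFun (Fin d) ℝ).sum_repr ξ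
    simp only [EuclideanSpace.basisFun_repr, EuclideanSpace.basisFun_apply] at h2
    exact h2.symm
  have h3 : ((EuclideanSpace.proj i : V d →L[ℝ] ℝ).comp F) ξ = ∑ j, ξ j • ((EuclideanSpace.proj i : V d →L[ℝ] ℝ).comp F) (EuclideanSpace.single j 1) := by
    conv_lhs => rw [h1]
    rw [map_sum]
    refine Finset.sum_congr rfl fun j _ => ?_
    rw [map_smul]
  have h4 : (F ξ) i = ((EuclideanSpace.proj i : V d →L[ℝ] ℝ).comp F) ξ := rfl
  rw [h4, h3]
  refine Finset.sum_congr rfl fun j _ => ?_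
  rw [smul_eq_mul, mul_comm]
  rfl

/-- the trace -/
theorem AWMT_tr (hX : AWXH_stmt) {G : V d → V d →L[ℝ] V d} (hG : IsMetric G) (q : P d) (M : MC d) (hM : M.transpose = M) :
    Matrix.trace (WA (fderiv ℝ (XH G) q) + WB (fderiv ℝ (XH G) q) * M) = Wdv G q M 0 := by
  obtain ⟨x1, x2, -⟩ := hX d G hG q
  have hM' : ∀ i j, M j i = M i j := fun i j => by
    have h1 := congrFun (congrFun hM i) j
    exact h1
  have hW0 : Wcx (0 : V d) = 0 := by
    funext i
    change (((0 : ℝ)) : ℂ) = 0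
    exact Complex.ofReal_zero
  unfold Wdv
  rw [hW0, Matrix.mulVec_zero, add_zero, add_zero, Matrix.trace_add]
  congr 1
  · unfold Matrix.trace
    refine Finset.sum_congr rfl fun i _ => ?_
    rw [Matrix.diag_apply, x1 i i]
    unfold WhE
    rw [Finset.sum_eq_single i]
    · rw [AWMT_exp]
      push_cast
      refine Finset.sum_congr rfl fun j _ => ?_
      have h1 : Wcx (EuclideanSpace.single i (1 : ℝ) : V d) i = 1 := by
        unfold Wcx
        rw [EuclideanSpace.single_apply, if_pos rfl, Complex.ofReal_one]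
      rw [h1, one_mul]
      rfl
    · intro a _ ha
      refine Finset.sum_eq_zero fun j _ => ?_
      have h1 : Wcx (EuclideanSpace.single i (1 : ℝ) : V d) a = 0 := by
        unfold Wcx
        rw [EuclideanSpace.single_apply, if_neg ha, Complex.ofReal_zero]
      rw [h1, zero_mul, mul_zero]
    · intro h
      exact absurd (Finset.mem_univ i) h
  · unfold Matrix.trace
    refine Finset.sum_congr rfl fun i _ => ?_
    rw [Matrix.diag_apply, Matrix.mul_apply]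
    refine Finset.sum_congr rfl fun j _ => ?_
    rw [x2 i j, hM' i j]

end

theorem AWMT_proof (hAWYT : AWYT_stmt) (hAWLN : AWLN_stmt) (hAWDT : AWDT_stmt) (hAWAM : AWAM_stmt) (hAWXH : AWXH_stmt)
    (hGSY : GSY_stmt) : AWMT_stmt := by
  intro d G Φ hG hΦ L Y0 P0 hL
  obtain ⟨s1, s2, s3⟩ := hAWYT d G Φ hG hΦ Y0 P0
  obtain ⟨C0, hC0, hdt⟩ := hAWDT d
  have hsy := (hGSY d G Φ hG hΦ).1
  -- the Lagrangian property
  have hlag : ∀ (p : P d) (t : ℝ), (Yf (Φ t) p Y0 P0).det ≠ 0 ∧ (Mt Φ p Y0 P0 t).transpose = Mt Φ p Y0 P0 t := by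
    intro p t
    have h0 : (1 : ℝ) ≤ max L 1 := le_max_right _ _
    have h1 := hAWLN d (fderiv ℝ (Φ t) p) (hsy t p) (max L 1) Y0 P0 (by linarith) (AWMT_lag (le_max_left _ _) hL)
    have hd0 : (0 : ℝ) ≤ d := Nat.cast_nonneg d
    have h2 : (1 : ℝ) ≤ 2 * ((d : ℝ) + 1) * (1 + ‖fderiv ℝ (Φ t) p‖) * max L 1 := by
      have a1 : (1 : ℝ) ≤ 2 * ((d : ℝ) + 1) := by linarith
      have a2 : (1 : ℝ) ≤ 1 + ‖fderiv ℝ (Φ t) p‖ := by
        have := norm_nonneg (fderiv ℝ (Φ t) p)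
        linarith
      exact one_le_mul_of_one_le_of_one_le (one_le_mul_of_one_le_of_one_le a1 a2) h0
    obtain ⟨a1, a2, -⟩ := hdt _ _ _ h2 h1
    exact ⟨a1, a2⟩
  have hdet : ∀ x : P d × ℝ, (Yf (Φ x.2) x.1 Y0 P0).det ≠ 0 := fun x => (hlag x.1 x.2).1
  -- smoothness
  have hYs : ∀ i j, ContDiff ℝ ∞ fun x : P d × ℝ => Yf (Φ x.2) x.1 Y0 P0 i j := fun i j => (s1 i j).1
  have hQs : ∀ i j, ContDiff ℝ ∞ fun x : P d × ℝ => Pf (Φ x.2) x.1 Y0 P0 i j := fun i j => (s1 i j).2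
  have hIs : ∀ i j, ContDiff ℝ ∞ fun x : P d × ℝ => (Yf (Φ x.2) x.1 Y0 P0)⁻¹ i j := fun i j => AWMT_inv (A := fun x : P d × ℝ => Yf (Φ x.2) x.1 Y0 P0) hYs hdet i j
  have hMs : ∀ i j, ContDiff ℝ ∞ fun x : P d × ℝ => Mt Φ x.1 Y0 P0 x.2 i j := fun i j =>
    AWMT_mul (A := fun x : P d × ℝ => Pf (Φ x.2) x.1 Y0 P0) (B := fun x : P d × ℝ => (Yf (Φ x.2) x.1 Y0 P0)⁻¹) hQs hIs i j
  -- the amplitude
  have hY1 : ∀ (p : P d) (i j : Fin d), ContDiff ℝ 1 fun t => Yf (Φ t) p Y0 P0 i j := by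
    intro p i j
    exact AWMT_sl (hYs i j) p
  have hamp : ∀ (p : P d) (t : ℝ), HasDerivAt (fun s => amp Φ p Y0 P0 s)
      (-(1 / 2) * Matrix.trace ((Matrix.of fun i j => deriv (fun u => Yf (Φ u) p Y0 P0 i j) t) * (Yf (Φ t) p Y0 P0)⁻¹) * amp Φ p Y0 P0 t) t ∧
      amp Φ p Y0 P0 t ^ 2 * (Yf (Φ t) p Y0 P0).det = (Yf (Φ 0) p Y0 P0).det := fun p t =>
    hAWAM d (fun t => Yf (Φ t) p Y0 P0) (hY1 p) (fun t => (hlag p t).1) t
  refine ⟨?_, hMs, ?_, ?_, ?_⟩
  · intro p t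
    refine ⟨(hlag p t).1, (hlag p t).2, ?_, ?_⟩
    · rw [(hamp p t).2, (s3 p).1]
    · unfold amp
      rw [intervalIntegral.integral_same, mul_zero, Complex.exp_zero]
  · -- continuity of the amplitude
    have h1 : Continuous (Function.uncurry fun (p : P d) (s : ℝ) =>
        Matrix.trace ((Matrix.of fun i j => deriv (fun r => Yf (Φ r) p Y0 P0 i j) s) * (Yf (Φ s) p Y0 P0)⁻¹)) := by
      have e : (Function.uncurry fun (p : P d) (s : ℝ) =>
          Matrix.trace ((Matrix.of fun i j => deriv (fun r => Yf (Φ r) p Y0 P0 i j) s) * (Yf (Φ s) p Y0 P0)⁻¹)) =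
          fun x : P d × ℝ => ∑ i, ∑ k, deriv (fun r => Yf (Φ r) x.1 Y0 P0 i k) x.2 * (Yf (Φ x.2) x.1 Y0 P0)⁻¹ k i := by
        funext x
        unfold Function.uncurry Matrix.trace
        refine Finset.sum_congr rfl fun i _ => ?_
        rw [Matrix.diag_apply, Matrix.mul_apply]
        rfl
      rw [e]
      refine continuous_finsetSum _ fun i _ => continuous_finsetSum _ fun k _ => ?_
      exact (AWMT_dr (hYs i k)).2.mul (hIs k i).continuous
    have h2 := intervalIntegral.continuous_parametric_primitive_of_continuous (a₀ := 0) (μ := volume) h1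
    exact Complex.continuous_exp.comp (continuous_const.mul h2)
  · -- the Riccati equation
    intro p t i j
    obtain ⟨M', hM'⟩ : ∃ M' : MC d, ∀ i j, HasDerivAt (fun s => Mt Φ p Y0 P0 s i j) (M' i j) t :=
      ⟨Matrix.of fun i j => fderiv ℝ (fun x : P d × ℝ => Mt Φ x.1 Y0 P0 x.2 i j) (p, t) (0, 1), fun i j => (AWMT_dr (hMs i j)).1 (p, t)⟩
    have hYd : ∀ i j, HasDerivAt (fun s => Yf (Φ s) p Y0 P0 i j) ((WA (fderiv ℝ (XH G) (Φ t p)) * Yf (Φ t) p Y0 P0 + WB (fderiv ℝ (XH G) (Φ t p)) * Pf (Φ t) p Y0 P0) i j) t :=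
      fun i j => (s2 p t i j).1
    have hQd : ∀ i j, HasDerivAt (fun s => Pf (Φ s) p Y0 P0 i j) ((WC (fderiv ℝ (XH G) (Φ t p)) * Yf (Φ t) p Y0 P0 + WD (fderiv ℝ (XH G) (Φ t p)) * Pf (Φ t) p Y0 P0) i j) t :=
      fun i j => (s2 p t i j).2
    have hu : ∀ s, IsUnit (Yf (Φ s) p Y0 P0).det := fun s => isUnit_iff_ne_zero.2 (hlag p s).1
    have hMY : ∀ s, Mt Φ p Y0 P0 s * Yf (Φ s) p Y0 P0 = Pf (Φ s) p Y0 P0 := by
      intro s
      unfold Mt
      rw [Matrix.mul_assoc, Matrix.nonsing_inv_mul _ (hu s), Matrix.mul_one]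
    have hQd2 : ∀ i j, HasDerivAt (fun s => Pf (Φ s) p Y0 P0 i j) ((M' * Yf (Φ t) p Y0 P0 + Mt Φ p Y0 P0 t * (WA (fderiv ℝ (XH G) (Φ t p)) * Yf (Φ t) p Y0 P0 + WB (fderiv ℝ (XH G) (Φ t p)) * Pf (Φ t) p Y0 P0)) i j) t := by
      intro i j
      have h1 := AWMT_dm hM' hYd i j
      simp only [hMY] at h1
      exact h1
    have heq : M' * Yf (Φ t) p Y0 P0 + Mt Φ p Y0 P0 t * (WA (fderiv ℝ (XH G) (Φ t p)) * Yf (Φ t) p Y0 P0 + WB (fderiv ℝ (XH G) (Φ t p)) * Pf (Φ t) p Y0 P0) =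
        WC (fderiv ℝ (XH G) (Φ t p)) * Yf (Φ t) p Y0 P0 + WD (fderiv ℝ (XH G) (Φ t p)) * Pf (Φ t) p Y0 P0 := by
      ext i j
      exact (hQd2 i j).unique (hQd i j)
    have hfin : M' = WC (fderiv ℝ (XH G) (Φ t p)) + WD (fderiv ℝ (XH G) (Φ t p)) * Mt Φ p Y0 P0 t - Mt Φ p Y0 P0 t * WA (fderiv ℝ (XH G) (Φ t p)) - Mt Φ p Y0 P0 t * WB (fderiv ℝ (XH G) (Φ t p)) * Mt Φ p Y0 P0 t := by
      have h1 : M' * Yf (Φ t) p Y0 P0 = (WC (fderiv ℝ (XH G) (Φ t p)) + WD (fderiv ℝ (XH G) (Φ t p)) * Mt Φ p Y0 P0 t - Mt Φ p Y0 P0 t * WA (fderiv ℝ (XH G) (Φ t p)) - Mt Φ p Y0 P0 t * WB (fderiv ℝ (XH G) (Φ t p)) * Mt Φ p Y0 P0 t) * Yf (Φ t) p Y0 P0 := by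
        rw [Matrix.sub_mul, Matrix.sub_mul, Matrix.add_mul, Matrix.mul_assoc (WD _), Matrix.mul_assoc (Mt Φ p Y0 P0 t * WB _), hMY t, Matrix.mul_assoc (Mt Φ p Y0 P0 t), Matrix.mul_assoc (Mt Φ p Y0 P0 t)]
        rw [← heq, Matrix.mul_add]
        abel
      have h2 := congrArg (fun A => A * (Yf (Φ t) p Y0 P0)⁻¹) h1
      rw [Matrix.mul_assoc, Matrix.mul_nonsing_inv _ (hu t), Matrix.mul_one, Matrix.mul_assoc, Matrix.mul_nonsing_inv _ (hu t), Matrix.mul_one] at h2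
      exact h2
    rw [← hfin]
    exact hM' i j
  · -- the transport equation
    intro p t
    have h1 := (hamp p t).1
    have h2 : (Matrix.of fun i j => deriv (fun u => Yf (Φ u) p Y0 P0 i j) t) * (Yf (Φ t) p Y0 P0)⁻¹ =
        WA (fderiv ℝ (XH G) (Φ t p)) + WB (fderiv ℝ (XH G) (Φ t p)) * Mt Φ p Y0 P0 t := by
      have h3 : (Matrix.of fun i j => deriv (fun u => Yf (Φ u) p Y0 P0 i j) t) =
          WA (fderiv ℝ (XH G) (Φ t p)) * Yf (Φ t) p Y0 P0 + WB (fderiv ℝ (XH G) (Φ t p)) * Pf (Φ t) p Y0 P0 := by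
        ext i j
        exact (s2 p t i j).1.deriv
      rw [h3, Matrix.add_mul, Matrix.mul_assoc, Matrix.mul_nonsing_inv _ (isUnit_iff_ne_zero.2 (hlag p t).1), Matrix.mul_one, Matrix.mul_assoc]
      rfl
    rw [h2, AWMT_tr hAWXH hG _ _ (hlag p t).2] at h1
    exact h1

end Pool.Agent.VD
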