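import Pool.Agent.helper74.VD.SpecI
import Pool.Agent.helper80.VD.SpecF

/-!
# Project VD (MP_07c750_an), row ADMD: measure theory of the index set
-/

set_option autoImplicit false

open scoped ContDiff Topology InnerProductSpace ComplexConjugate ENNReal
open MeasureTheory Filter Set

namespace Pool.Agent.VD

open Pool.Agent.VQ (CH)

noncomputable section

theorem ADMD_countable (d : ℕ) (Γ : Type) [Group Γ] [MulAction Γ (V d)] (K : Set (V d)) (h : FdK Γ K) : Countable Γ := by
  rw [← Set.countable_univ_iff]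
  have hcov : (univ : Set Γ) = ⋃ n : ℕ, {γ : Γ | ∃ x ∈ Metric.closedBall (0 : V d) n, γ • x ∈ Metric.closedBall (0 : V d) n} := by
    refine (Set.eq_univ_of_forall fun γ => ?_).symm
    obtain ⟨n, hn⟩ := exists_nat_ge ‖γ • (0 : V d)‖
    refine mem_iUnion.2 ⟨n, 0, ?_, ?_⟩
    · rw [Metric.mem_closedBall, dist_self]
      exact Nat.cast_nonneg n
    · rw [Metric.mem_closedBall, dist_zero_right]
      exact hn
  rw [hcov]
  exact Set.countable_iUnion fun n => (h.proper _ (isCompact_closedBall _ _)).countable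

theorem ADMD_disc (Γ : Type) : @DiscreteMeasurableSpace Γ ⊤ := @DiscreteMeasurableSpace.mk Γ ⊤ (fun _ => trivial)

/-- measure theory of `Γ × P` -/
theorem ADMD_prod (d : ℕ) (Γ : Type) [Group Γ] [Countable Γ] :
    SigmaFinite (mY Γ d) ∧ (∀ γ : Γ, MeasurePreserving (fun y : YS Γ d => γ • y) (mY Γ d) (mY Γ d)) ∧
    (∀ f : YS Γ d → ENNReal, Measurable f ↔ ∀ γ : Γ, Measurable fun p : P d => f (γ, p)) ∧
    (∀ f : YS Γ d → ENNReal, Measurable f → ∫⁻ y, f y ∂mY Γ d = ∑' γ : Γ, ∫⁻ p : P d, f (γ, p)) ∧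
    Measurable (fun y : YS Γ d => y.2) ∧ ∀ T : Set Γ, MeasurableSet (DT d T) := by
  letI : MeasurableSpace Γ := ⊤
  haveI : DiscreteMeasurableSpace Γ := ADMD_disc Γ
  have hsf : SigmaFinite ((Measure.count : Measure Γ).prod (volume : Measure (P d))) := inferInstance
  refine ⟨hsf, ?_, ?_, ?_, ?_, ?_⟩
  · intro γ
    have h1 : MeasurePreserving (fun x : Γ => γ * x) (Measure.count : Measure Γ) Measure.count := by
      refine ⟨measurable_of_countable _, ?_⟩
      ext s hs
      rw [Measure.map_apply (measurable_of_countable _) hs]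
      have h2 : (fun x : Γ => γ * x) ⁻¹' s = (fun x : Γ => γ⁻¹ * x) '' s := by
        rw [Set.image_mul_left, inv_inv]
      rw [h2, Measure.count_injective_image (mul_right_injective γ⁻¹)]
    exact h1.prod (MeasurePreserving.id (volume : Measure (P d)))
  · intro f
    constructor
    · intro hf γ
      exact hf.comp (measurable_prodMk_left : Measurable (fun p : P d => ((γ, p) : Γ × P d)))
    · intro hf
      exact measurable_from_prod_countable_right (f := (f : Γ × P d → ENNReal)) hf
  · intro f hf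
    have h := lintegral_prod (μ := (Measure.count : Measure Γ)) (ν := (volume : Measure (P d))) (f : Γ × P d → ENNReal) (hf.aemeasurable)
    rw [lintegral_count] at h
    exact h
  · exact (measurable_snd : Measurable (fun y : Γ × P d => y.2))
  · intro T
    exact (measurable_fst : Measurable (fun y : Γ × P d => y.1)) (MeasurableSet.of_discrete (s := T))

/-- **ADMD** -/
theorem ADMD_proof (hGXH : GXH_stmt) (hGSC : GSC_stmt) : ADMD_stmt := by
  intro d Γ _ _ K k B G hK hG
  haveI := ADMD_countable d Γ K hK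
  obtain ⟨h1, h2, h3, h4, h5, h6⟩ := ADMD_prod d Γ
  have hHam : Continuous (Ham G) := (hGXH d G hG.met).1.continuous
  refine ⟨h1, h2, h3, h4, ?_, ?_⟩
  · intro r0 c R
    refine ⟨?_, fun γ y => Iff.rfl, ?_⟩
    · have hcl : IsClosed {p : P d | ‖p.1‖ ≤ r0 ∧ |Ep G p| ≤ c * R ^ (-(1 / 4) : ℝ)} := by
        have hc1 : IsClosed {p : P d | ‖p.1‖ ≤ r0} := isClosed_le (continuous_fst.norm) continuous_const
        have hE : Continuous (fun p : P d => |Ep G p|) := (hHam.sub continuous_const).abs
        have hc2 : IsClosed {p : P d | |Ep G p| ≤ c * R ^ (-(1 / 4) : ℝ)} := isClosed_le hE continuous_const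
        exact hc1.inter hc2
      exact h5 hcl.measurableSet
    · have hc := hGSC d G hG.met (Metric.closedBall 0 r0) (c * R ^ (-(1 / 4) : ℝ) + 1 / 2) (isCompact_closedBall _ _)
      refine lt_of_le_of_lt (measure_mono ?_) hc.measure_lt_top
      rintro p ⟨hp1, hp2⟩
      refine ⟨?_, ?_⟩
      · rw [Metric.mem_closedBall, dist_zero_right]
        exact hp1
      · have h7 := (le_abs_self _).trans hp2
        unfold Ep at h7
        linarith
  · rintro Λ F T (⟨rfl, hF, rfl⟩ | ⟨rfl, rfl, rfl⟩)
    · refine ⟨hF.meas, h6 _, ?_, ?_⟩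
      · intro z
        obtain ⟨γ, hγ, hu⟩ := hF.uniq z
        refine ⟨⟨γ, Subgroup.mem_top γ⟩, hγ, ?_⟩
        rintro ⟨γ', h'⟩ hγ'
        exact Subtype.ext (hu γ' hγ')
      · intro y
        refine ⟨⟨y.1⁻¹, Subgroup.mem_top _⟩, ?_, ?_⟩
        · show y.1⁻¹ * y.1 ∈ ({1} : Set Γ)
          rw [inv_mul_cancel]
          rfl
        · rintro ⟨γ', h'⟩ hγ'
          apply Subtype.ext
          have h8 : γ' * y.1 = 1 := hγ'
          exact eq_inv_of_mul_eq_one_left h8
    · refine ⟨MeasurableSet.univ, h6 _, ?_, ?_⟩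
      · intro z
        refine ⟨1, mem_univ _, fun γ' _ => Subsingleton.elim _ _⟩
      · intro y
        refine ⟨1, mem_univ _, fun γ' _ => Subsingleton.elim _ _⟩

end

end Pool.Agent.VD
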