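import Pool.Agent.helper47.VD.SpecA1b

/-!
# Row AQAD of project VD (MP_07c750_an): analysis and synthesis, the near identity
-/

set_option autoImplicit false

open scoped ContDiff Topology InnerProductSpace ComplexConjugate ENNReal
open MeasureTheory Filter Set

namespace Pool.Agent.VD

open Pool.Agent.VQ (CH)

/-- real and extended integral of the square of the norm -/
theorem AQAD_sq {X : Type*} [MeasurableSpace X] {μ : Measure X} {g : X → ℂ} (hg : AEStronglyMeasurable g μ) :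
    ∫ y, ‖g y‖ ^ 2 ∂μ = (∫⁻ y, ‖g y‖ₑ ^ 2 ∂μ).toReal := by
  rw [integral_eq_lintegral_of_nonneg_ae (f := fun y => ‖g y‖ ^ 2) (Eventually.of_forall fun y => by positivity) (hg.norm.pow 2)]
  refine congrArg ENNReal.toReal ?_
  refine lintegral_congr fun y => ?_
  rw [ENNReal.ofReal_pow (norm_nonneg _), ofReal_norm_eq_enorm]

/-- the final inequality -/
theorem AQAD_fin {N a I e : ℝ} (hN : 0 ≤ N) (ha : 0 ≤ a) (hI : 0 ≤ I)
    (h : N ≤ 2 * e * (Real.sqrt a * Real.sqrt N) + (2 * I + N / 4)) : N ≤ 8 * (e ^ 2 * a + I) := by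
  have h1 : Real.sqrt a ^ 2 = a := Real.sq_sqrt ha
  have h2 : Real.sqrt N ^ 2 = N := Real.sq_sqrt hN
  have h3 : 0 ≤ (2 * e * Real.sqrt a - Real.sqrt N / 2) ^ 2 := sq_nonneg _
  have h4 : (2 * e * Real.sqrt a - Real.sqrt N / 2) ^ 2 = 4 * e ^ 2 * Real.sqrt a ^ 2 - 2 * e * (Real.sqrt a * Real.sqrt N) + Real.sqrt N ^ 2 / 4 := by
    ring
  rw [h4, h1, h2] at h3
  linarith

/-- a Cauchy-Schwarz inequality with weights -/
theorem AQAD_cs {X : Type*} [MeasurableSpace X] {μ : Measure X} {f g : X → ℂ} (hf : MemLp f 2 μ) (hg : MemLp g 2 μ) :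
    ‖∫ y, f y * conj (g y) ∂μ‖ ≤ 2 * (∫ y, ‖f y‖ ^ 2 ∂μ) + (∫ y, ‖g y‖ ^ 2 ∂μ) / 8 := by
  have hf2 : Integrable (fun y => ‖f y‖ ^ 2) μ := (memLp_two_iff_integrable_sq_norm hf.1).1 hf
  have hg2 : Integrable (fun y => ‖g y‖ ^ 2) μ := (memLp_two_iff_integrable_sq_norm hg.1).1 hg
  calc ‖∫ y, f y * conj (g y) ∂μ‖ ≤ ∫ y, (2 * ‖f y‖ ^ 2 + ‖g y‖ ^ 2 / 8) ∂μ := by
        refine norm_integral_le_of_norm_le ((hf2.const_mul 2).add (hg2.div_const 8)) (Eventually.of_forall fun y => ?_)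
        rw [norm_mul, RCLike.norm_conj]
        nlinarith [sq_nonneg (‖f y‖ - ‖g y‖ / 4)]
    _ = 2 * (∫ y, ‖f y‖ ^ 2 ∂μ) + (∫ y, ‖g y‖ ^ 2 ∂μ) / 8 := by
        rw [integral_add (hf2.const_mul 2) (hg2.div_const 8), integral_const_mul, integral_div]

/-- the square of the norm of `u` as a complex integral -/
theorem AQAD_nn {d : ℕ} (G : V d → V d →L[ℝ] V d) (F : Set (V d)) (u : V d → ℂ) :
    ∫ z in F, u z * conj (u z) ∂mv G = ((nn G F u : ℝ) : ℂ) := by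
  unfold nn
  rw [← integral_complex_ofReal]
  refine integral_congr_ae (Eventually.of_forall fun z => ?_)
  change u z * conj (u z) = ((‖u z‖ ^ 2 : ℝ) : ℂ)
  rw [Complex.mul_conj']
  push_cast
  rfl

theorem AQAD_proof (h1 : APOL_stmt) (h2 : AQAX_stmt) (h3 : AQSD_stmt) (h4 : AISD_stmt) (h5 : AFHB_stmt) (h6 : ADMD_stmt) :
    AQAD_stmt := by
  intro d Γ _ _ K k B r0 χ ch ζ hF hPU hCH hz hz8
  obtain ⟨R1, hR1, H1⟩ := h1 d Γ K k B r0 χ ch ζ hF hPU hCH hz hz8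
  obtain ⟨R2, hR2, H2⟩ := h2 d Γ K k B r0 χ ch ζ hF hPU hCH hz hz8
  obtain ⟨R3, hR3, H3⟩ := h3 d Γ K k B r0 χ ch ζ hF hPU hCH hz hz8
  obtain ⟨R4, hR4, H4⟩ := h4 d Γ K k B r0 χ ch ζ hF hPU hCH hz hz8
  refine ⟨max (max R1 R2) (max R3 R4), le_max_of_le_left (le_max_of_le_left hR1), ?_⟩
  intro R G hR hG Λ F T hD
  have r1 : R1 ≤ R := (le_max_left _ _).trans ((le_max_left _ _).trans hR)
  have r2 : R2 ≤ R := (le_max_right _ _).trans ((le_max_left _ _).trans hR)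
  have r3 : R3 ≤ R := (le_max_left _ _).trans ((le_max_right _ _).trans hR)
  have r4 : R4 ≤ R := (le_max_right _ _).trans ((le_max_right _ _).trans hR)
  have hR1' : 1 ≤ R := hR1.trans r1
  obtain ⟨P1, P2⟩ := H1 R G r1 hG Λ F T hD
  obtain ⟨Q1, Q2⟩ := H2 R G r2 hG Λ F T hD
  obtain ⟨-, -, -, -, -, -, H3'⟩ := H3 R G r3 hG
  obtain ⟨S1, S2, S3⟩ := H3' Λ F T hD
  have I4 := H4 R G r4 hG Λ F T hD
  obtain ⟨A1, A2, -⟩ := h5 d Γ K k B G hF hG Λ F T hD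
  obtain ⟨-, -, -, -, M5, M6⟩ := h6 d Γ K k B G hF hG
  have hGWm : MeasurableSet (GW Γ G r0 2 R) := (M5 r0 2 R).1
  refine ⟨fun φ hφ => ⟨Q1 φ hφ, ?_⟩, Q2⟩
  have hwF : FH Λ F (Qs G r0 χ ch ζ R (QF (Γ := Γ) G χ ch ζ R φ)) := S2 _ (S1 φ hφ).1
  generalize hw : Qs G r0 χ ch ζ R (QF (Γ := Γ) G χ ch ζ R φ) = w at hwF
  have huF : FH Λ F (fun z => w z - φ z) := by
    have h7 := A2 1 (-1) w φ hwF hφ
    have e : (fun z => (1 : ℂ) * w z + (-1) * φ z) = fun z => w z - φ z := by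
      funext z
      ring
    rwa [e] at h7
  generalize hu : (fun z => w z - φ z) = u at huF
  have huz : ∀ z, u z = w z - φ z := fun z => by rw [← hu]
  -- the square of the norm
  have hNw : Integrable (fun z => w z * conj (u z)) ((mv G).restrict F) :=
    MemLp.integrable_mul (p := 2) (q := 2) (A1 w hwF).2.2.1 (A1 u huF).2.2.1.star
  have hNf : Integrable (fun z => φ z * conj (u z)) ((mv G).restrict F) :=
    MemLp.integrable_mul (p := 2) (q := 2) (A1 φ hφ).2.2.1 (A1 u huF).2.2.1.star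
  have hN1 : ((nn G F u : ℝ) : ℂ) = (∫ z in F, w z * conj (u z) ∂mv G) - ∫ z in F, φ z * conj (u z) ∂mv G := by
    rw [← AQAD_nn, ← integral_sub hNw hNf]
    refine integral_congr_ae (Eventually.of_forall fun z => ?_)
    change u z * conj (u z) = w z * conj (u z) - φ z * conj (u z)
    rw [← sub_mul, ← huz]
  -- duality
  have hdual : ∫ z in F, w z * conj (u z) ∂mv G = ∫ y in DT d T ∩ GW Γ G r0 2 R, QF G χ ch ζ R φ y * conj (QF G χ ch ζ R u y) ∂mY Γ d := by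
    have h7 := S3 u (QF (Γ := Γ) G χ ch ζ R φ) huF (S1 φ hφ).1
    rw [hw] at h7
    have h8 := congrArg (starRingEnd ℂ) h7
    rw [← integral_conj, ← integral_conj] at h8
    have e1 : ∀ z, (starRingEnd ℂ) (u z * conj (w z)) = w z * conj (u z) := by
      intro z
      rw [map_mul, Complex.conj_conj, mul_comm]
    have e2 : ∀ y : YS Γ d, (starRingEnd ℂ) (QF G χ ch ζ R u y * conj (QF G χ ch ζ R φ y)) = QF G χ ch ζ R φ y * conj (QF G χ ch ζ R u y) := by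
      intro y
      rw [map_mul, Complex.conj_conj, mul_comm]
    simp only [e1, e2] at h8
    exact h8.symm
  obtain ⟨B1, B2⟩ := P2 φ u hφ huF
  have hsplit := integral_inter_add_sdiff hGWm B1
  -- the part outside of the window
  have hsub : DT d T \ GW Γ G r0 2 R ⊆ DT d T := sdiff_subset
  have m1 : MemLp (QF (Γ := Γ) G χ ch ζ R φ) 2 ((mY Γ d).restrict (DT d T \ GW Γ G r0 2 R)) :=
    (P1 φ hφ).mono_measure (Measure.restrict_mono hsub le_rfl)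
  have m2 : MemLp (QF (Γ := Γ) G χ ch ζ R u) 2 ((mY Γ d).restrict (DT d T \ GW Γ G r0 2 R)) :=
    (P1 u huF).mono_measure (Measure.restrict_mono hsub le_rfl)
  have hout := AQAD_cs m1 m2
  rw [AQAD_sq m1.1, AQAD_sq m2.1] at hout
  have he0 : 0 ≤ R ^ (-(1 / 4) : ℝ) := Real.rpow_nonneg (by linarith) _
  have he1 : R ^ (-(1 / 4) : ℝ) ≤ 1 := Real.rpow_le_one_of_one_le_of_nonpos hR1' (by norm_num)
  have hN0 : 0 ≤ nn G F u := (A1 u huF).2.2.2.2.1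
  have hJ : (∫⁻ y in DT d T \ GW Γ G r0 2 R, ‖QF G χ ch ζ R u y‖ₑ ^ 2 ∂mY Γ d).toReal ≤ 2 * nn G F u := by
    have h7 : ∫⁻ y in DT d T \ GW Γ G r0 2 R, ‖QF G χ ch ζ R u y‖ₑ ^ 2 ∂mY Γ d ≤ ENNReal.ofReal (2 * nn G F u) := by
      refine (lintegral_mono_set hsub).trans ((I4 u huF).1.trans (ENNReal.ofReal_le_ofReal ?_))
      nlinarith
    exact ENNReal.toReal_le_of_le_ofReal (by linarith) h7
  -- the sum
  have hkey : ((nn G F u : ℝ) : ℂ) = ((∫ y in DT d T, QF G χ ch ζ R φ y * conj (QF G χ ch ζ R u y) ∂mY Γ d) - ∫ z in F, φ z * conj (u z) ∂mv G) -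
      ∫ y in DT d T \ GW Γ G r0 2 R, QF G χ ch ζ R φ y * conj (QF G χ ch ζ R u y) ∂mY Γ d := by
    rw [hN1, hdual, ← hsplit]
    ring
  have hbd : nn G F u ≤ 2 * R ^ (-(1 / 4) : ℝ) * (Real.sqrt (nn G F φ) * Real.sqrt (nn G F u)) +
      (2 * (∫⁻ y in DT d T \ GW Γ G r0 2 R, ‖QF G χ ch ζ R φ y‖ₑ ^ 2 ∂mY Γ d).toReal + nn G F u / 4) := by
    have h7 : nn G F u = ‖((nn G F u : ℝ) : ℂ)‖ := by
      rw [Complex.norm_real, Real.norm_of_nonneg hN0]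
    have h8 : ‖((nn G F u : ℝ) : ℂ)‖ ≤ 2 * R ^ (-(1 / 4) : ℝ) * (Real.sqrt (nn G F φ) * Real.sqrt (nn G F u)) +
        (2 * (∫⁻ y in DT d T \ GW Γ G r0 2 R, ‖QF G χ ch ζ R φ y‖ₑ ^ 2 ∂mY Γ d).toReal + nn G F u / 4) := by
      rw [hkey]
      refine (norm_sub_le _ _).trans (add_le_add B2 (hout.trans ?_))
      linarith
    linarith
  have hfin := AQAD_fin hN0 (A1 φ hφ).2.2.2.2.1 ENNReal.toReal_nonneg hbd
  have he2 : (R ^ (-(1 / 4) : ℝ)) ^ 2 = R ^ (-(1 / 2) : ℝ) := by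
    rw [← Real.rpow_natCast, ← Real.rpow_mul (by linarith)]
    norm_num
  rw [he2] at hfin
  exact hfin

end Pool.Agent.VD
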