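import Pool.Agent.helper11.VD.SpecR

/-!
# Project VD (MP_07c750_an), block C, row BPD: scaled bumps
-/

set_option autoImplicit false

open scoped ContDiff Topology InnerProductSpace ENNReal
open MeasureTheory Filter Set

namespace Pool.Agent.VD

open Pool.Agent.RPQ (PN PJ UN upd)
open Pool.Agent.VQ (rk)
open Pool.Agent.VN (aN)

noncomputable section

/-- the bump function -/
def BPD_b (d : ℕ) : ContDiffBump (0 : V d) := ⟨1 / 2, 1, by norm_num, by norm_num⟩

theorem BPD_bd (d i : ℕ) : ∃ C : ℝ, ∀ x : V d, ‖iteratedFDeriv ℝ i (BPD_b d) x‖ ≤ C := by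
  apply Continuous.bounded_above_of_compact_support
  · have h : ContDiff ℝ i (BPD_b d) := (BPD_b d).contDiff
    exact h.continuous_iteratedFDeriv le_rfl
  · exact (BPD_b d).hasCompactSupport.iteratedFDeriv i

theorem BPD_in {d : ℕ} (f : V d → V d) (x p : V d) (ρ : ℝ) (hf : ContDiff ℝ ∞ f) (i : ℕ) (hi : 1 ≤ i) :
    iteratedFDeriv ℝ i (fun y => ρ⁻¹ • (f y - p)) x = ρ⁻¹ • iteratedFDeriv ℝ i f x := by
  have hfi : ContDiff ℝ i f := hf.of_le (by exact_mod_cast le_top)
  have hp : ContDiff ℝ i (fun _ : V d => p) := contDiff_const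
  have h1 : iteratedFDeriv ℝ i (fun y => ρ⁻¹ • (f - fun _ : V d => p) y) x = ρ⁻¹ • iteratedFDeriv ℝ i (f - fun _ : V d => p) x :=
    iteratedFDeriv_const_smul_apply' (hfi.sub hp).contDiffAt
  have h2 : iteratedFDeriv ℝ i (f - fun _ : V d => p) x = iteratedFDeriv ℝ i f x - iteratedFDeriv ℝ i (fun _ : V d => p) x :=
    iteratedFDeriv_sub_apply hfi.contDiffAt hp.contDiffAt
  have h3 : iteratedFDeriv ℝ i (fun _ : V d => p) x = 0 := by
    rw [iteratedFDeriv_const_of_ne (by omega)]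
    rfl
  rw [h3, sub_zero] at h2
  rw [h2] at h1
  exact h1

/-- **BPD** -/
theorem BPD_proof : BPD_stmt := by
  intro d
  refine ⟨BPD_b d, (BPD_b d).contDiff, fun u => ⟨(BPD_b d).nonneg, (BPD_b d).le_one⟩, ?_, ?_, ?_⟩
  · intro u hu
    apply (BPD_b d).one_of_mem_closedBall
    rw [Metric.mem_closedBall, dist_zero_right]
    exact hu
  · intro u hu
    apply (BPD_b d).zero_of_le_dist
    rw [dist_zero_right]
    exact hu
  · intro n M hM
    choose C hC using BPD_bd d
    obtain ⟨A, hA⟩ : ∃ A : ℝ, A = ∑ i ∈ Finset.range (n + 1), |C i| := ⟨_, rfl⟩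
    have hA0 : 0 ≤ A := by
      rw [hA]
      exact Finset.sum_nonneg fun i _ => abs_nonneg _
    have hAi : ∀ i ≤ n, ∀ u : V d, ‖iteratedFDeriv ℝ i (BPD_b d) u‖ ≤ A := by
      intro i hi u
      refine (hC i u).trans ((le_abs_self _).trans ?_)
      rw [hA]
      exact Finset.single_le_sum (f := fun i => |C i|) (fun i _ => abs_nonneg _) (Finset.mem_range.2 (by omega))
    refine ⟨n.factorial * A * M ^ n, by positivity, ?_⟩
    intro f x p ρ hf hρ hρ1 hfi
    have h1 : 1 ≤ M / ρ := by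
      rw [le_div_iff₀ hρ]
      linarith
    have key := norm_iteratedFDeriv_comp_le (𝕜 := ℝ) (g := (BPD_b d : V d → ℝ)) (f := fun y => ρ⁻¹ • (f y - p)) (n := n) (N := ∞) (BPD_b d).contDiff
      ((hf.sub contDiff_const).const_smul ρ⁻¹) (by exact_mod_cast le_top) x (C := A) (D := M / ρ) (fun i hi => hAi i hi _) ?_
    · refine key.trans (le_of_eq ?_)
      rw [div_pow]
      ring
    · intro i hi1 hi2
      rw [BPD_in f x p ρ hf i hi1, norm_smul, norm_inv, Real.norm_eq_abs, abs_of_pos hρ]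
      have h2 : ρ⁻¹ * ‖iteratedFDeriv ℝ i f x‖ ≤ ρ⁻¹ * M := mul_le_mul_of_nonneg_left (hfi i hi1 hi2) (by positivity)
      have h3 : ρ⁻¹ * M = M / ρ := by ring
      have h4 : M / ρ ≤ (M / ρ) ^ i := by
        calc M / ρ = (M / ρ) ^ 1 := (pow_one _).symm
          _ ≤ (M / ρ) ^ i := pow_le_pow_right₀ h1 hi1
      linarith

end

end Pool.Agent.VD
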