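import Pool.Agent.helper11.VD.SpecC

/-!
# Project VD (MP_07c750_an), block C, row CFC: conformal metrics, bounds and closeness
-/

set_option autoImplicit false

open scoped ContDiff Topology InnerProductSpace ENNReal ComplexConjugate
open MeasureTheory Filter Set

namespace Pool.Agent.VD

noncomputable section

theorem CFC_metric {d : ℕ} (f : V d → ℝ) (G : V d → V d →L[ℝ] V d) (hf : ContDiff ℝ ∞ f) (hG : IsMetric G) : IsMetric (cfm f G) := by
  refine ⟨?_, ?_, ?_⟩
  · exact (Real.contDiff_exp.comp hf).smul hG.smooth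
  · intro x u v
    show ⟪(Real.exp (f x) • G x) u, v⟫_ℝ = ⟪u, (Real.exp (f x) • G x) v⟫_ℝ
    rw [ContinuousLinearMap.smul_apply, ContinuousLinearMap.smul_apply, real_inner_smul_left, real_inner_smul_right, hG.symm]
  · intro x u hu
    show 0 < ⟪(Real.exp (f x) • G x) u, u⟫_ℝ
    rw [ContinuousLinearMap.smul_apply, real_inner_smul_left]
    exact mul_pos (Real.exp_pos _) (hG.pos x u hu)

theorem CFC_exp (i : ℕ) (t : ℝ) : ‖iteratedFDeriv ℝ i Real.exp t‖ = Real.exp t := by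
  rw [norm_iteratedFDeriv_eq_norm_iteratedDeriv, iteratedDeriv_eq_iterate, Real.iter_deriv_exp, Real.norm_eq_abs, abs_of_pos (Real.exp_pos t)]

/-- composition with `exp` -/
theorem CFC_comp {d : ℕ} (n : ℕ) (M D : ℝ) (f : V d → ℝ) (x : V d) (hf : ContDiff ℝ ∞ f) (h0 : |f x| ≤ M)
    (hD : ∀ i, 1 ≤ i → i ≤ n → ‖iteratedFDeriv ℝ i f x‖ ≤ D ^ i) :
    ‖iteratedFDeriv ℝ n (fun y => Real.exp (f y)) x‖ ≤ n.factorial * Real.exp M * D ^ n := by
  have key := norm_iteratedFDeriv_comp_le (𝕜 := ℝ) (g := Real.exp) (f := f) (n := n) (N := ∞) Real.contDiff_exp hf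
    (by exact_mod_cast le_top) x (C := Real.exp M) (D := D) (fun i _ => by
      rw [CFC_exp]
      exact Real.exp_le_exp.2 ((le_abs_self _).trans h0)) hD
  exact key

theorem CFC_expb {d : ℕ} (n : ℕ) (M : ℝ) (hM : 1 ≤ M) (f : V d → ℝ) (x : V d) (hf : ContDiff ℝ ∞ f)
    (hb : ∀ i ≤ n, ‖iteratedFDeriv ℝ i f x‖ ≤ M) (i : ℕ) (hi : i ≤ n) :
    ‖iteratedFDeriv ℝ i (fun y => Real.exp (f y)) x‖ ≤ n.factorial * Real.exp M * M ^ n := by
  have h0 : |f x| ≤ M := by
    have := hb 0 (Nat.zero_le n)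
    rwa [norm_iteratedFDeriv_zero] at this
  have h1 := CFC_comp i M M f x hf h0 (fun j hj1 hj2 => (hb j (hj2.trans hi)).trans (by
    calc M = M ^ 1 := (pow_one M).symm
      _ ≤ M ^ j := pow_le_pow_right₀ hM hj1))
  refine h1.trans ?_
  have h2 : (i.factorial : ℝ) ≤ n.factorial := by exact_mod_cast Nat.factorial_le hi
  have h3 : M ^ i ≤ M ^ n := pow_le_pow_right₀ hM hi
  have h4 : 0 < Real.exp M := Real.exp_pos M
  have h5 : (0 : ℝ) ≤ M ^ i := by positivity
  exact mul_le_mul (mul_le_mul_of_nonneg_right h2 h4.le) h3 h5 (by positivity)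

/-- `exp h - 1` for small `h` -/
theorem CFC_exps {d : ℕ} (n : ℕ) (s : ℝ) (hs0 : 0 ≤ s) (hs1 : s ≤ 1) (h : V d → ℝ) (x : V d) (hh : ContDiff ℝ ∞ h)
    (hb : ∀ i ≤ n, ‖iteratedFDeriv ℝ i h x‖ ≤ s) (i : ℕ) (hi : i ≤ n) :
    ‖iteratedFDeriv ℝ i (fun y => Real.exp (h y) - 1) x‖ ≤ 3 * n.factorial * s := by
  have hn1 : (1 : ℝ) ≤ n.factorial := by exact_mod_cast Nat.one_le_iff_ne_zero.2 (Nat.factorial_ne_zero n)
  have h0 : |h x| ≤ s := by
    have := hb 0 (Nat.zero_le n)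
    rwa [norm_iteratedFDeriv_zero] at this
  rcases Nat.eq_zero_or_pos i with rfl | hi0
  · rw [norm_iteratedFDeriv_zero, Real.norm_eq_abs]
    have h1 := Real.abs_exp_sub_one_le (h0.trans hs1)
    have h2 : 2 * |h x| ≤ 2 * s := by linarith
    have h3 : 2 * s ≤ 3 * n.factorial * s := by nlinarith
    linarith
  · have he : ContDiff ℝ i (fun y => Real.exp (h y)) := (Real.contDiff_exp.comp hh).of_le (by exact_mod_cast le_top)
    have hc : ContDiff ℝ i (fun _ : V d => (1 : ℝ)) := contDiff_const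
    have e1 : iteratedFDeriv ℝ i ((fun y => Real.exp (h y)) - fun _ : V d => (1 : ℝ)) x =
        iteratedFDeriv ℝ i (fun y => Real.exp (h y)) x - iteratedFDeriv ℝ i (fun _ : V d => (1 : ℝ)) x :=
      iteratedFDeriv_sub_apply he.contDiffAt hc.contDiffAt
    have e2 : iteratedFDeriv ℝ i (fun _ : V d => (1 : ℝ)) x = 0 := by
      rw [iteratedFDeriv_const_of_ne (by omega)]
      rfl
    rw [e2, sub_zero] at e1
    have e3 : ‖iteratedFDeriv ℝ i (fun y => Real.exp (h y) - 1) x‖ = ‖iteratedFDeriv ℝ i (fun y => Real.exp (h y)) x‖ := by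
      rw [← e1]
      rfl
    rw [e3]
    have hi0' : (0 : ℝ) < i := by exact_mod_cast hi0
    have key := CFC_comp i 1 (s ^ (1 / (i : ℝ))) h x hh (h0.trans hs1) (by
      intro j hj1 hj2
      refine (hb j (hj2.trans hi)).trans ?_
      rw [← Real.rpow_natCast, ← Real.rpow_mul hs0]
      rcases eq_or_lt_of_le hs0 with hs | hs
      · rw [← hs]
        exact Real.rpow_nonneg le_rfl _
      · have hji : (1 / (i : ℝ)) * j ≤ 1 := by
          rw [div_mul_eq_mul_div, one_mul, div_le_one hi0']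
          exact_mod_cast hj2
        calc s = s ^ (1 : ℝ) := (Real.rpow_one s).symm
          _ ≤ s ^ ((1 / (i : ℝ)) * j) := Real.rpow_le_rpow_of_exponent_ge hs hs1 hji)
    have e4 : (s ^ (1 / (i : ℝ))) ^ i = s := by
      rw [← Real.rpow_natCast, ← Real.rpow_mul hs0, one_div, inv_mul_cancel₀ hi0'.ne', Real.rpow_one]
    rw [e4] at key
    refine key.trans ?_
    have h2 : (i.factorial : ℝ) ≤ n.factorial := by exact_mod_cast Nat.factorial_le hi
    have h3 : Real.exp 1 ≤ 3 := Real.exp_one_lt_three.le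
    have h4 : (i.factorial : ℝ) * Real.exp 1 ≤ n.factorial * 3 := mul_le_mul h2 h3 (Real.exp_pos 1).le (by positivity)
    have h5 := mul_le_mul_of_nonneg_right h4 hs0
    linarith

/-- products -/
theorem CFC_prod {d : ℕ} {F : Type} [NormedAddCommGroup F] [NormedSpace ℝ F] (n : ℕ) (A B : ℝ) (f : V d → ℝ) (g : V d → F) (x : V d) (hf : ContDiff ℝ ∞ f) (hg : ContDiff ℝ ∞ g)
    (hA : ∀ i ≤ n, ‖iteratedFDeriv ℝ i f x‖ ≤ A) (hB : ∀ i ≤ n, ‖iteratedFDeriv ℝ i g x‖ ≤ B) (i : ℕ) (hi : i ≤ n) :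
    ‖iteratedFDeriv ℝ i (fun y => f y • g y) x‖ ≤ 2 ^ n * A * B := by
  have hA0 : 0 ≤ A := (norm_nonneg _).trans (hA 0 (Nat.zero_le n))
  have hB0 : 0 ≤ B := (norm_nonneg _).trans (hB 0 (Nat.zero_le n))
  have key := norm_iteratedFDeriv_smul_le (𝕜 := ℝ) hf hg x (n := i) (by exact_mod_cast le_top)
  refine key.trans ?_
  have h1 : ∀ j ∈ Finset.range (i + 1), (i.choose j : ℝ) * ‖iteratedFDeriv ℝ j f x‖ * ‖iteratedFDeriv ℝ (i - j) g x‖ ≤ (i.choose j : ℝ) * (A * B) := by
    intro j hj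
    have hj' : j ≤ i := by have := Finset.mem_range.1 hj; omega
    rw [mul_assoc]
    apply mul_le_mul_of_nonneg_left _ (Nat.cast_nonneg _)
    exact mul_le_mul (hA j (hj'.trans hi)) (hB (i - j) (by omega)) (norm_nonneg _) hA0
  refine (Finset.sum_le_sum h1).trans ?_
  rw [← Finset.sum_mul]
  have h2 : ∑ j ∈ Finset.range (i + 1), (i.choose j : ℝ) = 2 ^ i := by
    exact_mod_cast Nat.sum_range_choose i
  rw [h2, mul_assoc]
  apply mul_le_mul_of_nonneg_right _ (mul_nonneg hA0 hB0)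
  exact pow_le_pow_right₀ (by norm_num) hi

/-- **CFC** -/
theorem CFC_proof : CFC_stmt := by
  intro d
  refine ⟨fun f G hf hG => CFC_metric f G hf hG, ?_⟩
  intro n M hM
  obtain ⟨A, hA⟩ : ∃ A : ℝ, A = n.factorial * Real.exp M * M ^ n := ⟨_, rfl⟩
  have hA1 : 1 ≤ A := by
    have hn1 : (1 : ℝ) ≤ n.factorial := by exact_mod_cast Nat.one_le_iff_ne_zero.2 (Nat.factorial_ne_zero n)
    have h2 : 1 ≤ Real.exp M := Real.one_le_exp (by linarith)
    have h3 : 1 ≤ M ^ n := one_le_pow₀ hM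
    rw [hA]
    have h4 : 1 ≤ (n.factorial : ℝ) * Real.exp M := by nlinarith
    nlinarith
  have h2n : (1 : ℝ) ≤ 2 ^ n := one_le_pow₀ (by norm_num)
  refine ⟨2 ^ n * A * M + 2 ^ n * A * (2 ^ n * (3 * n.factorial) * M), ?_, ?_⟩
  · have h3 : 1 ≤ 2 ^ n * A := by nlinarith
    have h4 : 1 ≤ 2 ^ n * A * M := by nlinarith
    have h5 : 0 ≤ 2 ^ n * A * (2 ^ n * (3 * (n.factorial : ℝ)) * M) := by positivity
    linarith
  · intro f f' G x s hf hf' hG hs0 hs1 hb
    have hE := CFC_expb n M hM f x hf (fun i hi => (hb i hi).1)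
    have hE' := CFC_expb n M hM f' x hf' (fun i hi => (hb i hi).2.1)
    rw [← hA] at hE hE'
    have hef : ContDiff ℝ ∞ (fun y => Real.exp (f y)) := Real.contDiff_exp.comp hf
    have hef' : ContDiff ℝ ∞ (fun y => Real.exp (f' y)) := Real.contDiff_exp.comp hf'
    refine ⟨?_, ?_⟩
    · have h1 := CFC_prod n A M (fun y => Real.exp (f y)) G x hef hG.smooth hE (fun i hi => (hb i hi).2.2) n le_rfl
      have h5 : 0 ≤ 2 ^ n * A * (2 ^ n * (3 * (n.factorial : ℝ)) * M) := by positivity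
      have h6 : ‖iteratedFDeriv ℝ n (cfm f G) x‖ ≤ 2 ^ n * A * M := h1
      linarith
    · intro hs
      have hh : ContDiff ℝ ∞ (fun y => f y - f' y) := hf.sub hf'
      have h1 := CFC_exps n s hs0 hs1 (fun y => f y - f' y) x hh hs
      have hes : ContDiff ℝ ∞ (fun y => Real.exp (f y - f' y) - 1) := (Real.contDiff_exp.comp hh).sub contDiff_const
      have h2 := CFC_prod n (3 * n.factorial * s) M (fun y => Real.exp (f y - f' y) - 1) G x hes hG.smooth h1 (fun i hi => (hb i hi).2.2)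
      have h3 := CFC_prod n A (2 ^ n * (3 * n.factorial * s) * M) (fun y => Real.exp (f' y)) (fun y => (Real.exp (f y - f' y) - 1) • G y) x hef' (hes.smul hG.smooth) hE' h2 n le_rfl
      have e : (fun y => cfm f G y - cfm f' G y) = fun y => Real.exp (f' y) • ((Real.exp (f y - f' y) - 1) • G y) := by
        funext y
        show Real.exp (f y) • G y - Real.exp (f' y) • G y = _
        have e0 : Real.exp (f' y) * (Real.exp (f y - f' y) - 1) = Real.exp (f y) - Real.exp (f' y) := by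
          rw [mul_sub, mul_one, ← Real.exp_add]
          congr 2
          ring
        have hsub : ∀ (a b : ℝ) (T : V d →L[ℝ] V d), a • T - b • T = (a - b) • T := fun a b T => (sub_smul a b T).symm
        rw [hsub, smul_smul, e0]
      rw [e]
      refine h3.trans ?_
      have h7 : 0 ≤ 2 ^ n * A * M * s := by positivity
      have h8 : 2 ^ n * A * (2 ^ n * (3 * (n.factorial : ℝ) * s) * M) = 2 ^ n * A * (2 ^ n * (3 * (n.factorial : ℝ)) * M) * s := by ring
      rw [h8, add_mul]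
      linarith

end

end Pool.Agent.VD
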