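import Pool.Agent.helper94.VD.SpecDPR

/-!
# Row DCE of project VD (MP_07c750_an), block B3: chains of exact Poincaré maps exist
-/

set_option autoImplicit false

open scoped ContDiff Topology InnerProductSpace ENNReal
open MeasureTheory Filter Set

namespace Pool.Agent.VD

theorem DCE_proof (hSFE : SFE_stmt) (hSKA : SKA_stmt) (hDTR : DTR_stmt) : DCE_stmt := by
  intro m C hC
  obtain ⟨C', r, hC', hr, hr1, hK⟩ := hSKA m C hC
  obtain ⟨c1, C1, e2, hc1, hC1, he2, he2r, hT⟩ := hDTR m C C' r hC hC' hr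
  refine ⟨C', r, c1, C1, e2, hC', hr, hr1, hc1, hC1, he2, he2r, ?_⟩
  intro Γ _ _ K G Φ D hG z l b n0 gam hz hl hl2 hn0 hgam
  have hnrm : ∀ t : ℝ, nrm G (Φ t z) = 1 := by
    intro t
    have h1 := (hG.hm 1 t z).1
    have h2 : MM Φ (1 : Γ) (t, z) = Φ t z := hG.l1 _
    rw [h2, hz] at h1
    exact h1
  have hex : ∀ i : ℕ, ∃ γ : Γ, lft γ (Φ (i * l) z) ∈ SK K G ∧ ∀ j ≤ b, i = j * n0 → γ = gam j := by
    intro i
    by_cases h : ∃ j ≤ b, i = j * n0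
    · obtain ⟨j, hj, rfl⟩ := h
      refine ⟨gam j, ?_, ?_⟩
      · rw [Nat.cast_mul]
        exact hgam j hj
      · intro j' _ he
        have h1 : j = j' := Nat.eq_of_mul_eq_mul_right (by omega) he
        rw [h1]
    · obtain ⟨γ, hγ⟩ := hG.cov (Φ (i * l) z) (hnrm _)
      exact ⟨γ, hγ, fun j hj he => absurd ⟨j, hj, he⟩ h⟩
  choose g hg1 hg2 using hex
  obtain ⟨y, hy⟩ : ∃ y : ℕ → P (m + 1), ∀ i : ℕ, y i = lft (g i) (Φ (i * l) z) := ⟨_, fun i => rfl⟩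
  have hys : ∀ i, y i ∈ SK K G := by
    intro i
    rw [hy i]
    exact hg1 i
  have hfr : ∀ i, ∃ e : W m →L[ℝ] V (m + 1), Frm G (y i) e := fun i => hSFE m G (y i) hG.met (hys i).2
  choose e he using hfr
  have hch : ∀ i, ∃ κ : Z m → P (m + 1), KC C' r G (y i) (e i) κ := fun i => hK Γ K G Φ D hG (y i) (hys i) (e i) (he i)
  choose κ hκ using hch
  have hMM : ∀ i, MM Φ (g (i + 1) * (g i)⁻¹) (l, y i) = y (i + 1) := by
    intro i
    change lft (g (i + 1) * (g i)⁻¹) (Φ l (y i)) = y (i + 1)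
    rw [hy i, hG.lf, ← hG.lm, inv_mul_cancel_right, ← hG.fl.add, hy (i + 1)]
    have h1 : l + (i : ℝ) * l = ((i + 1 : ℕ) : ℝ) * l := by
      push_cast
      ring
    rw [h1]
  have hex2 : ∀ i, ∃ (F : Z m → Z m) (τ : Z m → ℝ), TR c1 C1 e2 G Φ (g (i + 1) * (g i)⁻¹) l (y i) (y (i + 1)) (e (i + 1)) (κ i) (κ (i + 1)) F τ := fun i =>
    hT Γ K G Φ D hG (y i) (hys i) (y (i + 1)) (hys (i + 1)) (e i) (e (i + 1)) (κ i) (κ (i + 1)) (he i) (he (i + 1)) (hκ i) (hκ (i + 1)) (g (i + 1) * (g i)⁻¹) l hl hl2 (hMM i)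
  choose F τ hF using hex2
  exact ⟨g, y, e, κ, F, τ, ⟨hys, fun i => (hMM i).symm, he, hκ, hF⟩, hy, fun j hj => hg2 (j * n0) j hj rfl⟩

end Pool.Agent.VD
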