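import Pool.Agent.helper93.VD.SpecB1

/-!
# Project VD (MP_07c750_an), block B1, row NSU: surjectivity of the end point map
-/

set_option autoImplicit false

open scoped ContDiff Topology InnerProductSpace
open MeasureTheory Filter Set

namespace Pool.Agent.VD

noncomputable section

theorem NSU_Q {m : ℕ} {c C : ℝ} (hc : 0 < c) (L : ℕ → Z m →L[ℝ] Z m) (hL : ∀ i, LH c C (L i)) (u : Z m) (k : ℕ) :
    QQ u + c * ‖u‖ ^ 2 ≤ QQ (pl L (k + 1) u) := by
  induction k with
  | zero => exact (hL 0).hy u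
  | succ k ih =>
    have h := (hL (k + 1)).hy (pl L (k + 1) u)
    have h2 : 0 ≤ c * ‖pl L (k + 1) u‖ ^ 2 := by positivity
    have e : pl L (k + 1 + 1) u = L (k + 1) (pl L (k + 1) u) := rfl
    rw [e]
    linarith

/-- the derivative of the end point map is surjective -/
theorem NSU_surj {m : ℕ} {c C : ℝ} (hc : 0 < c) (L : ℕ → Z m →L[ℝ] Z m) (hL : ∀ i, LH c C (L i)) (n : ℕ) (hn : 1 ≤ n) :
    LinearMap.range ((ContinuousLinearMap.fst ℝ (W m) (W m)).prod ((ContinuousLinearMap.fst ℝ (W m) (W m)).comp (pl L n)) : Z m →ₗ[ℝ] Z m) = ⊤ := by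
  rw [LinearMap.range_eq_top]
  apply LinearMap.surjective_of_injective
  rw [← LinearMap.ker_eq_bot, LinearMap.ker_eq_bot']
  intro u hu
  have h1 : u.1 = 0 := congrArg Prod.fst hu
  have h2 : (pl L n u).1 = 0 := congrArg Prod.snd hu
  obtain ⟨k, rfl⟩ : ∃ k, n = k + 1 := ⟨n - 1, by omega⟩
  have h3 := NSU_Q hc L hL u k
  have e1 : QQ u = 0 := by unfold QQ; rw [h1, inner_zero_left]
  have e2 : QQ (pl L (k + 1) u) = 0 := by unfold QQ; rw [h2, inner_zero_left]
  rw [e1, e2, zero_add] at h3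
  have h4 : ‖u‖ ^ 2 ≤ 0 := by
    by_contra h
    rw [not_le] at h
    have := mul_pos hc h
    linarith
  have h5 : ‖u‖ = 0 := by
    have := le_antisymm h4 (sq_nonneg _)
    exact pow_eq_zero_iff (two_ne_zero) |>.1 this
  exact norm_eq_zero.1 h5

/-- **NSU** -/
theorem NSU_proof (hNBD : NBD_stmt) (hNDE : NDE_stmt) : NSU_stmt := by
  intro m c C e0 hc hC he0
  obtain ⟨e1, μ, K, he1, he1e, hμ, hK, H⟩ := hNBD m c C e0 hc hC he0
  refine ⟨e1, e1 / (8 * K), K, he1, he1e, by positivity, hK, ?_⟩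
  intro F n hF hF0 hn x y hx hy
  have hK0 : 0 < K := by linarith
  have hle : e1 / 2 < e0 := by linarith
  -- a priori estimate
  have apr : ∀ a : Z m, (∀ i ≤ n, ‖it F i a‖ ≤ e1) → ∀ k ≤ n, ‖it F k a‖ ≤ K * (‖a.1‖ + ‖(it F n a).1‖) := by
    intro a ha k hk
    have h := H F n 0 (fun i => it F i a) (fun _ => 0) hF hn le_rfl
      ⟨fun i _ => by show ‖it F (i + 1) a - F i (it F i a)‖ ≤ 0; simp [it], ha⟩
      ⟨fun i _ => by show ‖(0 : Z m) - F i 0‖ ≤ 0; rw [hF0]; simp, fun i _ => by simp [he1.le]⟩ k hk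
    simp only [sub_zero, zero_add] at h
    have e0' : it F 0 a = a := rfl
    rw [e0'] at h
    refine h.trans ?_
    have x1 : Real.exp (-(μ * k)) ≤ 1 := Real.exp_le_one_iff.2 (by have : 0 ≤ μ * k := by positivity
                                                                   linarith)
    have hkn : (k : ℝ) ≤ n := by exact_mod_cast hk
    have x2 : Real.exp (-(μ * (n - k))) ≤ 1 := Real.exp_le_one_iff.2 (by have : 0 ≤ μ * (n - k) := mul_nonneg hμ.le (by linarith)
                                                                         linarith)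
    apply mul_le_mul_of_nonneg_left _ hK0.le
    have y1 := mul_le_mul_of_nonneg_right x1 (norm_nonneg a.1)
    have y2 := mul_le_mul_of_nonneg_right x2 (norm_nonneg (it F n a).1)
    linarith
  -- continuity
  have cont : ∀ (i : ℕ) (a : Z m), (∀ j < i, ‖it F j a‖ ≤ e1 / 2) → ContinuousAt (it F i) a := by
    intro i a ha
    obtain ⟨L, _, _, h, _⟩ := hNDE m c C e0 F i a he0 hF (fun j hj => lt_of_le_of_lt (ha j hj) hle)
    exact h.continuousAt
  -- the set of times
  let T : Set ℝ := {t | ∃ a : Z m, a.1 = t • x ∧ (it F n a).1 = t • y ∧ ∀ i ≤ n, ‖it F i a‖ ≤ e1 / 2}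
  have h0 : (0 : ℝ) ∈ T := by
    have hz : ∀ i, it F i (0 : Z m) = 0 := by
      intro i
      induction i with
      | zero => rfl
      | succ i ih =>
        show F i (it F i 0) = 0
        rw [ih, hF0]
    refine ⟨0, by simp, by rw [hz]; simp, fun i _ => by rw [hz, norm_zero]; linarith⟩
  have hclosed : IsClosed (T ∩ Icc 0 1) := by
    apply IsSeqClosed.isClosed
    intro t t0 ht hlim
    have ht1 : ∀ k, t k ∈ T := fun k => (ht k).1
    choose a ha1 ha2 ha3 using ht1
    have hball : ∀ k, a k ∈ Metric.closedBall (0 : Z m) (e1 / 2) := by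
      intro k
      rw [Metric.mem_closedBall, dist_zero_right]
      exact ha3 k 0 (Nat.zero_le n)
    obtain ⟨b, hb, φ, hφ, hconv⟩ := (isCompact_closedBall (0 : Z m) (e1 / 2)).tendsto_subseq hball
    have hbi : ∀ i ≤ n, ‖it F i b‖ ≤ e1 / 2 := by
      intro i
      induction i using Nat.strong_induction_on with
      | _ i ih =>
        intro hi
        have hc1 := cont i b (fun j hj => ih j hj (by omega))
        have h1 : Tendsto (fun k => ‖it F i (a (φ k))‖) atTop (𝓝 ‖it F i b‖) := (hc1.tendsto.comp hconv).norm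
        exact le_of_tendsto h1 (Eventually.of_forall fun k => ha3 (φ k) i hi)
    have hcn := cont n b (fun j hj => hbi j hj.le)
    have htφ : Tendsto (fun k => t (φ k)) atTop (𝓝 t0) := hlim.comp hφ.tendsto_atTop
    refine ⟨⟨b, ?_, ?_, hbi⟩, ?_⟩
    · have h1 : Tendsto (fun k => (a (φ k)).1) atTop (𝓝 b.1) := (continuous_fst.tendsto b).comp hconv
      have h2 : Tendsto (fun k => (t (φ k)) • x) atTop (𝓝 (t0 • x)) := htφ.smul_const x
      refine tendsto_nhds_unique h1 ?_
      simp only [ha1]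
      exact h2
    · have h1 : Tendsto (fun k => (it F n (a (φ k))).1) atTop (𝓝 (it F n b).1) := (continuous_fst.tendsto _).comp (hcn.tendsto.comp hconv)
      have h2 : Tendsto (fun k => (t (φ k)) • y) atTop (𝓝 (t0 • y)) := htφ.smul_const y
      refine tendsto_nhds_unique h1 ?_
      simp only [ha2]
      exact h2
    · exact isClosed_Icc.mem_of_tendsto hlim (Eventually.of_forall fun k => (ht k).2)
  have hopen : ∀ t ∈ T ∩ Ico 0 1, T ∈ 𝓝[>] t := by
    rintro t ⟨⟨a, ha1, ha2, ha3⟩, ht0, ht1⟩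
    apply mem_nhdsWithin_of_mem_nhds
    have hb : ∀ i ≤ n, ‖it F i a‖ < e1 / 2 := by
      intro i hi
      have h := apr a (fun j hj => (ha3 j hj).trans (by linarith)) i hi
      rw [ha1, ha2, norm_smul, norm_smul, Real.norm_eq_abs, abs_of_nonneg ht0] at h
      have h1 : t * ‖x‖ ≤ e1 / (8 * K) := by nlinarith [norm_nonneg x]
      have h2 : t * ‖y‖ ≤ e1 / (8 * K) := by nlinarith [norm_nonneg y]
      have h3 : K * (t * ‖x‖ + t * ‖y‖) ≤ K * (e1 / (8 * K) + e1 / (8 * K)) := mul_le_mul_of_nonneg_left (by linarith) hK0.le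
      have h4 : K * (e1 / (8 * K) + e1 / (8 * K)) = e1 / 4 := by field_simp; ring
      linarith
    have hN : {a' : Z m | ∀ i ≤ n, ‖it F i a'‖ < e1 / 2} ∈ 𝓝 a := by
      have h1 : ∀ i ∈ Finset.range (n + 1), ∀ᶠ a' in 𝓝 a, ‖it F i a'‖ < e1 / 2 := by
        intro i hi
        have hi' : i ≤ n := by have := Finset.mem_range.1 hi; omega
        exact (cont i a (fun j hj => (hb j (by omega)).le)).norm.eventually_lt_const (hb i hi')
      have h2 := (Finset.eventually_all (Finset.range (n + 1)) (l := 𝓝 a) (p := fun i a' => ‖it F i a'‖ < e1 / 2)).2 h1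
      filter_upwards [h2] with a' ha' i hi
      exact ha' i (Finset.mem_range.2 (by omega))
    obtain ⟨L, hL, _, hder, _⟩ := hNDE m c C e0 F n a he0 hF (fun j hj => (hb j hj.le).trans hle)
    let Φ : Z m → Z m := fun a' => (a'.1, (it F n a').1)
    have hΦ : HasStrictFDerivAt Φ ((ContinuousLinearMap.fst ℝ (W m) (W m)).prod ((ContinuousLinearMap.fst ℝ (W m) (W m)).comp (pl L n))) a := by
      refine HasStrictFDerivAt.prodMk ?_ ?_
      · exact hasStrictFDerivAt_fst
      · exact (hasStrictFDerivAt_fst (p := it F n a)).comp a hder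
    have hmap := hΦ.map_nhds_eq_of_surj (NSU_surj hc L hL n hn)
    have himg : Φ '' {a' : Z m | ∀ i ≤ n, ‖it F i a'‖ < e1 / 2} ∈ 𝓝 (Φ a) := by
      rw [← hmap]
      exact image_mem_map hN
    have hcurve : ContinuousAt (fun s : ℝ => ((s • x, s • y) : Z m)) t := by fun_prop
    have hval : (t • x, t • y) = Φ a := by
      show _ = (a.1, (it F n a).1)
      rw [ha1, ha2]
    have hpre : (fun s : ℝ => ((s • x, s • y) : Z m)) ⁻¹' (Φ '' {a' : Z m | ∀ i ≤ n, ‖it F i a'‖ < e1 / 2}) ∈ 𝓝 t := by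
      apply hcurve.preimage_mem_nhds
      show _ ∈ 𝓝 ((t • x, t • y) : Z m)
      rw [hval]
      exact himg
    refine mem_of_superset hpre ?_
    rintro s ⟨a', ha', hs⟩
    exact ⟨a', congrArg Prod.fst hs, congrArg Prod.snd hs, fun i hi => (ha' i hi).le⟩
  have hall := hclosed.Icc_subset_of_forall_mem_nhdsWithin h0 hopen
  obtain ⟨a, ha1, ha2, ha3⟩ := hall (right_mem_Icc.2 zero_le_one)
  rw [one_smul] at ha1 ha2
  refine ⟨a, ha1, ha2, fun i hi => ⟨?_, (ha3 i hi).trans (by linarith)⟩⟩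
  have h := apr a (fun j hj => (ha3 j hj).trans (by linarith)) i hi
  rw [ha1, ha2] at h
  exact h

end

end Pool.Agent.VD
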